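import Pool.Agent.Q120.BU.Stm

/-!
# Project BU, job CNX (helper120): combinatorial part
-/

set_option autoImplicit false

namespace Pool.Agent.Q137.BU

open Finset MeasureTheory Filter Pool.Agent.Q120.ET Pool.Agent.Q120.ME Pool.Agent.Q120.BU Polynomial
open scoped Topology

theorem prod_split {W T : Finset ℕ} (hT : T ⊆ W) (a b : ℕ → ℝ) :
    ∏ n ∈ W, (if n ∈ T then a n else b n) = (∏ n ∈ T, a n) * ∏ n ∈ W \ T, b n := by
  rw [← prod_sdiff hT, mul_comm]
  congr 1
  · exact prod_congr rfl fun n hn => if_pos hn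
  · exact prod_congr rfl fun n hn => if_neg (mem_sdiff.1 hn).2

/-- the probability of a superset -/
theorem sum_bern_sup (p : ℕ → ℝ) {W S : Finset ℕ} (hS : S ⊆ W) :
    ∑ T ∈ W.powerset, (if S ⊆ T then bern p W T else 0) = ∏ v ∈ S, p v := by
  have h1 : ∏ n ∈ W, (p n + (if n ∈ S then 0 else 1 - p n)) = ∏ v ∈ S, p v := by
    have h2 : ∀ n ∈ W, (p n + (if n ∈ S then 0 else 1 - p n)) = if n ∈ S then p n else 1 := by
      intro n _
      split_ifs <;> ring
    rw [prod_congr rfl h2, prod_split hS]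
    simp
  rw [← h1, prod_add]
  refine sum_congr rfl fun T hT => ?_
  rw [mem_powerset] at hT
  split_ifs with h
  · rw [bern, prod_split hT]
    congr 1
    refine prod_congr rfl fun n hn => ?_
    rw [if_neg (fun h' => (mem_sdiff.1 hn).2 (h h'))]
  · rw [Finset.not_subset] at h
    obtain ⟨n, hn, hn'⟩ := h
    have : ∏ n ∈ W \ T, (if n ∈ S then (0 : ℝ) else 1 - p n) = 0 :=
      prod_eq_zero (mem_sdiff.2 ⟨hS hn, hn'⟩) (if_pos hn)
    rw [this, mul_zero]

section

variable {k : ℕ}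

open Classical in
/-- the number of the `n ∈ [M, 2 M)` with all values in `T` -/
noncomputable def ff (F : Fin k → ℤ[X]) (M : ℕ) (T : Finset ℕ) : ℝ :=
  (((Ico M (2 * M)).filter (fun n => vals F n ⊆ T)).card : ℝ)

/-- the set of all values -/
noncomputable def WW (F : Fin k → ℤ[X]) (M : ℕ) : Finset ℕ := (Ico M (2 * M)).biUnion (vals F)

theorem mem_vals (F : Fin k → ℤ[X]) (n v : ℕ) : v ∈ vals F n ↔ ∃ i, va (F i) n = v := by
  simp [vals]

theorem vals_sub_iff (F : Fin k → ℤ[X]) (n : ℕ) (T : Finset ℕ) : vals F n ⊆ T ↔ ∀ i, va (F i) n ∈ T := by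
  constructor
  · intro h i; exact h ((mem_vals F n _).2 ⟨i, rfl⟩)
  · intro h v hv
    obtain ⟨i, rfl⟩ := (mem_vals F n v).1 hv
    exact h i

theorem vals_sub_WW (F : Fin k → ℤ[X]) {M n : ℕ} (hn : n ∈ Ico M (2 * M)) : vals F n ⊆ WW F M :=
  fun _ hv => mem_biUnion.2 ⟨n, hn, hv⟩

theorem ff_inter (F : Fin k → ℤ[X]) (M : ℕ) (T : Finset ℕ) : ff F M T = ff F M (T ∩ WW F M) := by
  classical
  unfold ff
  congr 2
  refine filter_congr fun n hn => ?_
  constructor
  · intro h; exact subset_inter h (vals_sub_WW F hn)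
  · intro h; exact h.trans inter_subset_left

theorem ff_lip (F : Fin k → ℤ[X]) (M : ℕ) (hdis : ∀ i j, ∀ n m : ℕ, va (F i) n = va (F j) m → i = j)
    (hinj : ∀ i, Function.Injective (va (F i))) (T : Finset ℕ) (a : ℕ) :
    |ff F M (insert a T) - ff F M (T.erase a)| ≤ 1 := by
  classical
  have h1 : ff F M (T.erase a) ≤ ff F M (insert a T) := by
    unfold ff
    exact_mod_cast card_le_card (fun n hn => by
      rw [mem_filter] at hn ⊢
      exact ⟨hn.1, hn.2.trans ((erase_subset _ _).trans (subset_insert _ _))⟩)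
  have h2 : ff F M (insert a T) ≤ ff F M (T.erase a) + 1 := by
    unfold ff
    have h3 : ((Ico M (2 * M)).filter (fun n => vals F n ⊆ insert a T)) ⊆
        ((Ico M (2 * M)).filter (fun n => vals F n ⊆ T.erase a)) ∪ ((Ico M (2 * M)).filter (fun n => a ∈ vals F n)) := by
      intro n hn
      rw [mem_union, mem_filter, mem_filter]
      rw [mem_filter] at hn
      by_cases ha : a ∈ vals F n
      · right; exact ⟨hn.1, ha⟩
      · left
        refine ⟨hn.1, fun v hv => ?_⟩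
        have hva : v ≠ a := fun h => ha (h ▸ hv)
        rw [mem_erase]
        exact ⟨hva, mem_of_mem_insert_of_ne (hn.2 hv) hva⟩
    have h4 : ((Ico M (2 * M)).filter (fun n => a ∈ vals F n)).card ≤ 1 := by
      rw [card_le_one]
      intro n hn m hm
      rw [mem_filter] at hn hm
      obtain ⟨i, hi⟩ := (mem_vals F n a).1 hn.2
      obtain ⟨j, hj⟩ := (mem_vals F m a).1 hm.2
      have hij := hdis i j n m (hi.trans hj.symm)
      subst hij
      exact hinj i (hi.trans hj.symm)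
    have h5 := (card_le_card h3).trans (card_union_le _ _)
    exact_mod_cast h5.trans (Nat.add_le_add_left h4 _)
  rw [abs_le]
  constructor <;> linarith

theorem ff_mean (F : Fin k → ℤ[X]) (M : ℕ) (r : ℕ → ℝ) :
    ∑ T ∈ (WW F M).powerset, bern r (WW F M) T * ff F M T = ∑ n ∈ Ico M (2 * M), ∏ v ∈ vals F n, r v := by
  classical
  have h1 : ∀ T, bern r (WW F M) T * ff F M T =
      ∑ n ∈ Ico M (2 * M), if vals F n ⊆ T then bern r (WW F M) T else 0 := by
    intro T
    unfold ff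
    rw [card_filter, Nat.cast_sum, mul_sum]
    refine sum_congr rfl fun n _ => ?_
    split_ifs <;> simp
  rw [sum_congr rfl fun T _ => h1 T, sum_comm]
  exact sum_congr rfl fun n hn => sum_bern_sup r (vals_sub_WW F hn)

theorem WW_card (F : Fin k → ℤ[X]) (M : ℕ) : (WW F M).card ≤ k * M := by
  have h1 : ∀ n ∈ Ico M (2 * M), (vals F n).card ≤ k := fun n _ =>
    card_image_le.trans (by simp)
  have h2 := card_biUnion_le_card_mul (Ico M (2 * M)) (vals F) k h1
  rw [Nat.card_Ico] at h2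
  have h3 : 2 * M - M = M := by omega
  rw [h3] at h2
  rw [WW, mul_comm k M]
  exact h2

theorem WW_pos (F : Fin k → ℤ[X]) (M : ℕ) (hk : 1 ≤ k) (hM : 1 ≤ M) : 0 < (WW F M).card := by
  rw [card_pos]
  refine ⟨va (F ⟨0, hk⟩) M, ?_⟩
  exact vals_sub_WW F (mem_Ico.2 ⟨le_rfl, by omega⟩) ((mem_vals F M _).2 ⟨_, rfl⟩)

/-- McDiarmid for the counts. -/
theorem ff_dev (hmcd : J_MCD) (F : Fin k → ℤ[X]) (M : ℕ) (hk : 1 ≤ k) (hM : 1 ≤ M)
    (hdis : ∀ i j, ∀ n m : ℕ, va (F i) n = va (F j) m → i = j)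
    (hinj : ∀ i, Function.Injective (va (F i))) (r : ℕ → ℝ) (hr : ∀ n, 0 ≤ r n ∧ r n ≤ 1) (t : ℝ) (ht : 0 < t) :
    ∑ T ∈ (WW F M).powerset with t ≤ |ff F M T - ∑ n ∈ Ico M (2 * M), ∏ v ∈ vals F n, r v|, bern r (WW F M) T ≤
      2 * Real.exp (-(t ^ 2 / (2 * (k * M)))) := by
  have h1 := hmcd r (WW F M) (WW F M) (subset_refl _) (fun n _ => hr n) (ff F M) 1 t ht one_pos
    (fun T => ff_inter F M T) (fun T a _ => ff_lip F M hdis hinj T a)
  rw [ff_mean] at h1
  refine h1.trans ?_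
  have h2 : (0 : ℝ) < (WW F M).card := by exact_mod_cast WW_pos F M hk hM
  have h3 : ((WW F M).card : ℝ) ≤ k * M := by exact_mod_cast WW_card F M
  have h4 : t ^ 2 / (2 * (k * M)) ≤ t ^ 2 / (2 * (WW F M).card * 1 ^ 2) := by
    apply div_le_div_of_nonneg_left (sq_nonneg t)
    · nlinarith
    · nlinarith
  have h5 : Real.exp (-(t ^ 2 / (2 * (WW F M).card * 1 ^ 2))) ≤ Real.exp (-(t ^ 2 / (2 * (k * M)))) :=
    Real.exp_le_exp.2 (neg_le_neg h4)
  linarith

/-- the counts on the block -/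
theorem hit_diff (S : Set ℕ) (F : Fin k → ℤ[X]) (M : ℕ) {Ω : Type} [MeasurableSpace Ω] (A : Ω → Set ℕ) (ω : Ω)
    (hS : A ω = S) :
    (hit S F (2 * M) : ℝ) - hit S F M = ff F M (tr A (WW F M) ω) := by
  classical
  have h1 : ∀ x, (hit S F x : ℝ) = ∑ n ∈ range x, if (∀ i, va (F i) n ∈ S) then (1 : ℝ) else 0 := by
    intro x
    rw [hit, card_filter, Nat.cast_sum]
    refine sum_congr rfl fun n _ => ?_
    split_ifs <;> simp
  rw [h1, h1, ← sum_Ico_eq_sub _ (by omega : M ≤ 2 * M), ff, card_filter, Nat.cast_sum]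
  refine sum_congr rfl fun n hn => ?_
  have h2 : vals F n ⊆ tr A (WW F M) ω ↔ ∀ i, va (F i) n ∈ S := by
    rw [vals_sub_iff]
    refine forall_congr' fun i => ?_
    rw [mem_tr, hS]
    constructor
    · exact fun h => h.2
    · exact fun h => ⟨vals_sub_WW F hn ((mem_vals F n _).2 ⟨i, rfl⟩), h⟩
  by_cases h : ∀ i, va (F i) n ∈ S
  · rw [if_pos h, if_pos (h2.2 h)]; simp
  · rw [if_neg h, if_neg (fun h' => h (h2.1 h'))]; simp

theorem ex_diff (p : ℕ → ℝ) (F : Fin k → ℤ[X]) (M : ℕ) :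
    ex p F (2 * M) - ex p F M = ∑ n ∈ Ico M (2 * M), ∏ v ∈ vals F n, p v := by
  rw [ex, ex, ← sum_Ico_eq_sub _ (by omega : M ≤ 2 * M)]

end

end Pool.Agent.Q137.BU
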