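import Pool.Agent.Q137.BU.C1
import Pool.Agent.Q285.ME.Constr
import Pool.Agent.Q224.ME.ENM

/-!
# Project BU, job CNX (helper120): probabilistic part
-/

set_option autoImplicit false

namespace Pool.Agent.Q137.BU

open Finset MeasureTheory Filter Pool.Agent.Q120.ET Pool.Agent.Q120.ME Pool.Agent.Q120.BU Polynomial
open scoped Topology

/-- the independent model with probabilities `r` -/
structure Ind (r : ℕ → ℝ) {Ω : Type} [MeasurableSpace Ω] (μ : Measure Ω) (A : Ω → Set ℕ) : Prop where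
  rand : IsRandomSet A
  law : ∀ F T : Finset ℕ, lawOn μ A F T = bern r F T
  ent : ∀ (p : ℕ → ℝ) (F : Finset ℕ), (∀ n ∈ F, 0 < p n ∧ p n < 1) →
    relEnt p μ A F ≤ ∑ n ∈ F, kl (r n) (p n)

theorem exists_ind (r : ℕ → ℝ) (hr : ∀ n, 0 ≤ r n ∧ r n ≤ 1) :
    ∃ (Ω : Type) (_ : MeasurableSpace Ω) (μ : Measure Ω) (_ : IsProbabilityMeasure μ) (A : Ω → Set ℕ), Ind r μ A := by
  obtain ⟨Ω, mΩ, μ, hμ, A, π, hM⟩ := Pool.Agent.Q285.ME.t_CON Unit (Measure.dirac ()) (fun _ n => r n)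
    (fun n => measurable_const) (fun _ n => hr n)
  refine ⟨Ω, mΩ, μ, hμ, A, hM.rand, ?_, ?_⟩
  · intro F T
    have := hM.law F T Set.univ MeasurableSet.univ
    rw [Set.preimage_univ, Set.inter_univ] at this
    rw [lawOn, this]
    simp
  · intro p F hp
    have := (Pool.Agent.Q224.ME.t_ENM Unit (Measure.dirac ()) (fun _ n => r n)
      (fun n => measurable_const) (fun _ n => hr n) Ω μ A π hM p F hp).2
    simpa using this

section

variable {r : ℕ → ℝ} {Ω : Type} [MeasurableSpace Ω] {μ : Measure Ω} [IsProbabilityMeasure μ] {A : Ω → Set ℕ}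

theorem Ind.ae_notMem (h : Ind r μ A) : ∀ᵐ ω ∂μ, ∀ n, r n = 0 → n ∉ A ω := by
  rw [ae_all_iff]
  intro n
  by_cases hn : r n = 0
  · have h1 := h.law {n} {n}
    rw [lawOn, bern] at h1
    simp only [Finset.mem_singleton, forall_eq, iff_true, Finset.prod_singleton, if_true, hn] at h1
    have h2 : μ {ω | n ∈ A ω} = 0 := by
      rwa [measureReal_eq_zero_iff] at h1
    rw [ae_iff]
    simpa [hn] using h2
  · exact Eventually.of_forall fun ω h => absurd h hn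

theorem Ind.event (h : Ind r μ A) (B : Finset ℕ) (P : Finset ℕ → Prop) [DecidablePred P] :
    μ.real {ω | P (tr A B ω)} = ∑ T ∈ B.powerset with P T, bern r B T := by
  rw [real_event h.rand B P]
  exact sum_congr rfl fun T _ => h.law B T

theorem Ind.meas (h : Ind r μ A) (B : Finset ℕ) (P : Finset ℕ → Prop) : MeasurableSet {ω | P (tr A B ω)} := by
  classical
  have h1 : {ω | P (tr A B ω)} = ⋃ T ∈ B.powerset.filter P, {ω | tr A B ω = T} := by
    ext ω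
    simp only [Set.mem_ofPred_eq, Set.mem_iUnion, exists_prop, mem_filter, mem_powerset]
    constructor
    · intro h
      refine ⟨_, ⟨fun n hn => (mem_tr.1 hn).1, h⟩, rfl⟩
    · rintro ⟨T, ⟨_, h⟩, h2⟩
      rw [h2]; exact h
  rw [h1]
  refine Finset.measurableSet_biUnion _ fun T hT => ?_
  rw [← law_set_eq A (mem_powerset.1 (mem_filter.1 hT).1)]
  exact measurableSet_law h.rand B T

/-- Borel-Cantelli for a sequence of blocks. -/
theorem Ind.bc (h : Ind r μ A) (hr : ∀ n, 0 ≤ r n ∧ r n ≤ 1) (hmcd : J_MCD) {k : ℕ} (hk : 1 ≤ k)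
    (F : ℕ → Fin k → ℤ[X]) (Mj : ℕ → ℕ) (J₀ : ℕ) (hM : ∀ j, 1 ≤ Mj j)
    (hdis : ∀ l, J₀ ≤ l → ∀ i j, ∀ n m : ℕ, va (F l i) n = va (F l j) m → i = j)
    (hinj : ∀ l, J₀ ≤ l → ∀ i, Function.Injective (va (F l i))) (t : ℕ → ℝ) (ht : ∀ j, 0 < t j)
    (hs : Summable fun j => Real.exp (-(t j ^ 2 / (2 * (k * Mj j))))) :
    ∀ᵐ ω ∂μ, ∀ᶠ j in atTop, |ff (F j) (Mj j) (tr A (WW (F j) (Mj j)) ω) -
      ∑ n ∈ Ico (Mj j) (2 * Mj j), ∏ v ∈ vals (F j) n, r v| < t j := by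
  classical
  have h1 : ∀ j, J₀ ≤ j → μ {ω | t j ≤ |ff (F j) (Mj j) (tr A (WW (F j) (Mj j)) ω) -
      ∑ n ∈ Ico (Mj j) (2 * Mj j), ∏ v ∈ vals (F j) n, r v|} ≤
      ENNReal.ofReal (2 * Real.exp (-(t j ^ 2 / (2 * (k * Mj j))))) := by
    intro j hj
    have h2 := h.event (WW (F j) (Mj j)) (fun T => t j ≤ |ff (F j) (Mj j) T -
      ∑ n ∈ Ico (Mj j) (2 * Mj j), ∏ v ∈ vals (F j) n, r v|)
    have h3 := ff_dev hmcd (F j) (Mj j) hk (hM j) (hdis j hj) (hinj j hj) r hr (t j) (ht j)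
    rw [← ofReal_measureReal]
    exact ENNReal.ofReal_le_ofReal (by rw [h2]; exact h3)
  have hsum : Summable fun j => 2 * Real.exp (-(t j ^ 2 / (2 * (k * Mj j)))) := hs.mul_left 2
  have h4 : ∑' j, μ {ω | J₀ ≤ j ∧ t j ≤ |ff (F j) (Mj j) (tr A (WW (F j) (Mj j)) ω) -
      ∑ n ∈ Ico (Mj j) (2 * Mj j), ∏ v ∈ vals (F j) n, r v|} ≠ ⊤ := by
    refine ne_top_of_le_ne_top ?_ (ENNReal.tsum_le_tsum (g := fun j =>
      ENNReal.ofReal (2 * Real.exp (-(t j ^ 2 / (2 * (k * Mj j)))))) fun j => ?_)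
    · exact hsum.tsum_ofReal_ne_top
    · by_cases hj : J₀ ≤ j
      · simpa [hj] using h1 j hj
      · simp [hj]
  have h5 := ae_eventually_notMem h4
  filter_upwards [h5] with ω hω
  filter_upwards [hω, eventually_ge_atTop J₀] with j hj hj0
  by_contra hcon
  push Not at hcon
  exact hj ⟨hj0, hcon⟩

end

end Pool.Agent.Q137.BU
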