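import Pool.Agent.Q137.BU.C1

/-!
# Project BU, job CNX (helper120): the probabilities
-/

set_option autoImplicit false

namespace Pool.Agent.Q137.BU

open Finset MeasureTheory Filter Pool.Agent.Q120.ET Pool.Agent.Q120.ME Pool.Agent.Q120.BU Polynomial
open scoped Topology

/-- the scales -/
def Ms (j : ℕ) : ℕ := 2 ^ (4 ^ j)

theorem Ms_pos (j : ℕ) : 1 ≤ Ms j := Nat.one_le_two_pow

theorem Ms_mono : Monotone Ms := fun _ _ h => Nat.pow_le_pow_right (by norm_num) (Nat.pow_le_pow_right (by norm_num) h)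

theorem Ms_two_pow (j : ℕ) : 2 ^ j ≤ Ms j :=
  Nat.pow_le_pow_right (by norm_num) (Nat.lt_pow_self (by norm_num : 1 < 4)).le

theorem Ms_tendsto : Tendsto Ms atTop atTop :=
  tendsto_atTop_mono (fun j => (Nat.lt_two_pow_self.le).trans (Ms_two_pow j)) tendsto_id

theorem Ms_succ (j : ℕ) : Ms (j + 1) = Ms j ^ 4 := by
  rw [Ms, Ms, ← pow_mul]; rfl

theorem log_Ms (j : ℕ) : Real.log (Ms j) = 4 ^ j * Real.log 2 := by
  rw [Ms]; push_cast; rw [Real.log_pow]; push_cast; rfl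

/-- a family of systems with separated values -/
structure Sep {k : ℕ} (F : ℕ → Fin k → ℤ[X]) (g J₀ : ℕ) (D : ℝ) : Prop where
  dis : ∀ l, J₀ ≤ l → ∀ i j, ∀ n m : ℕ, va (F l i) n = va (F l j) m → i = j
  inj : ∀ l, J₀ ≤ l → ∀ i, Function.Injective (va (F l i))
  size : ∀ l, J₀ ≤ l → ∀ i, ∀ n ∈ Ico (Ms l) (2 * Ms l), (Ms l : ℝ) ^ D / 2 ≤ va (F l i) n ∧
    (va (F l i) n : ℝ) ≤ 2 ^ (g + 1) * (Ms l : ℝ) ^ D
  gap : ∀ l, J₀ ≤ l → 2 ^ (g + 1) * (Ms l : ℝ) ^ D < (Ms (l + 1) : ℝ) ^ D / 2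
  one_le : 1 ≤ D

section

variable {k : ℕ} {F : ℕ → Fin k → ℤ[X]} {g J₀ : ℕ} {D : ℝ}

theorem Sep.same (h : Sep F g J₀ D) {l l' : ℕ} (hl : J₀ ≤ l) (hl' : J₀ ≤ l') {i i' : Fin k} {n m : ℕ}
    (hn : n ∈ Ico (Ms l) (2 * Ms l)) (hm : m ∈ Ico (Ms l') (2 * Ms l')) (he : va (F l i) n = va (F l' i') m) :
    l = l' := by
  have key : ∀ {l l' : ℕ} (_ : J₀ ≤ l) (_ : J₀ ≤ l') {i i' : Fin k} {n m : ℕ}
    (_ : n ∈ Ico (Ms l) (2 * Ms l)) (_ : m ∈ Ico (Ms l') (2 * Ms l')) (_ : va (F l i) n = va (F l' i') m), ¬ l < l' := by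
    intro l l' hl hl' i i' n m hn hm he hlt
    have h1 := (h.size l hl i n hn).2
    have h2 := (h.size l' hl' i' m hm).1
    have h3 := h.gap l hl
    have h4 : (Ms (l + 1) : ℝ) ^ D ≤ (Ms l' : ℝ) ^ D := by
      apply Real.rpow_le_rpow (by positivity)
      · exact_mod_cast Ms_mono hlt
      · linarith [h.one_le]
    rw [he] at h1
    linarith
  rcases lt_trichotomy l l' with h1 | h1 | h1
  · exact absurd h1 (key hl hl' hn hm he)
  · exact h1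
  · exact absurd h1 (key hl' hl hm hn he.symm)

variable (F) in
/-- the thinned values -/
noncomputable def VV (i₀ : Fin k) (j : ℕ) : Finset ℕ := (Ico (Ms j) (2 * Ms j)).image (va (F j i₀))

open Classical in
variable (F J₀) in
/-- the thinning -/
noncomputable def Ef (i₀ : Fin k) (e : ℕ → ℝ) (n : ℕ) : ℝ :=
  if h : ∃ j, J₀ ≤ j ∧ n ∈ VV F i₀ j then e h.choose else 0

theorem Ef_VV (h : Sep F g J₀ D) (i₀ : Fin k) (e : ℕ → ℝ) {j n : ℕ} (hj : J₀ ≤ j) (hn : n ∈ VV F i₀ j) :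
    Ef F J₀ i₀ e n = e j := by
  have hex : ∃ j, J₀ ≤ j ∧ n ∈ VV F i₀ j := ⟨j, hj, hn⟩
  rw [Ef, dif_pos hex]
  obtain ⟨h1, h2⟩ := hex.choose_spec
  rw [VV, mem_image] at h2 hn
  obtain ⟨m, hm, hm'⟩ := h2
  obtain ⟨m', hm2, hm2'⟩ := hn
  rw [h.same h1 hj hm hm2 (hm'.trans hm2'.symm)]

theorem Ef_not {i₀ : Fin k} {e : ℕ → ℝ} {n : ℕ} (hn : ¬ ∃ j, J₀ ≤ j ∧ n ∈ VV F i₀ j) :
    Ef F J₀ i₀ e n = 0 := by
  rw [Ef, dif_neg hn]

theorem Ef_mem (i₀ : Fin k) (e : ℕ → ℝ) (he : ∀ j, 0 ≤ e j ∧ e j ≤ 1) (n : ℕ) :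
    0 ≤ Ef F J₀ i₀ e n ∧ Ef F J₀ i₀ e n ≤ 1 := by
  unfold Ef
  split_ifs with h
  · exact he _
  · exact ⟨le_rfl, zero_le_one⟩

theorem Ef_prod (h : Sep F g J₀ D) (i₀ : Fin k) (e : ℕ → ℝ) {j n : ℕ} (hj : J₀ ≤ j)
    (hn : n ∈ Ico (Ms j) (2 * Ms j)) : ∏ v ∈ vals (F j) n, (1 - Ef F J₀ i₀ e v) = 1 - e j := by
  rw [prod_eq_single (va (F j i₀) n)]
  · rw [Ef_VV h i₀ e hj (mem_image_of_mem _ hn)]
  · intro v hv hne
    obtain ⟨i, rfl⟩ := (mem_vals _ _ _).1 hv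
    rw [Ef_not, sub_zero]
    rintro ⟨l, hl, hvl⟩
    rw [VV, mem_image] at hvl
    obtain ⟨m, hm, hm'⟩ := hvl
    have h1 := h.same hl hj hm hn hm'
    subst h1
    have h2 := h.dis l hl i₀ i m n hm'
    subst h2
    exact hne rfl
  · intro hh
    exact absurd ((mem_vals _ _ _).2 ⟨i₀, rfl⟩) hh

theorem VV_card (i₀ : Fin k) (j : ℕ) : (VV F i₀ j).card ≤ Ms j := by
  refine card_image_le.trans ?_
  rw [Nat.card_Ico]; omega

open Classical in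
/-- the sum of the squares of the thinning -/
theorem Ef_sum (h : Sep F g J₀ D) (i₀ : Fin k) (e : ℕ → ℝ) (x : ℕ) (hx : 1 ≤ x) (B : ℝ)
    (hB : 0 ≤ B) (hb : ∀ j, J₀ ≤ j → (Ms j : ℝ) ^ D ≤ 2 * x → Ms j * e j ^ 2 ≤ B) :
    ∑ n ∈ range x, Ef F J₀ i₀ e n ^ 2 ≤ (Real.log (2 * x) / Real.log 2 + 1) * B := by
  have hlog2 : 0 < Real.log 2 := Real.log_pos (by norm_num)
  have hx1 : (1 : ℝ) ≤ x := by exact_mod_cast hx
  have hlx : 0 ≤ Real.log (2 * x) := Real.log_nonneg (by linarith)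
  set L : ℕ := ⌊Real.log (2 * x) / Real.log 2⌋₊ + 1 with hL
  have hLle : (L : ℝ) ≤ Real.log (2 * x) / Real.log 2 + 1 := by
    rw [hL]; push_cast
    have := Nat.floor_le (div_nonneg hlx hlog2.le)
    linarith
  have h1 : ∀ n ∈ range x, Ef F J₀ i₀ e n ^ 2 ≤
      ∑ j ∈ (range L).filter (fun j => J₀ ≤ j ∧ (Ms j : ℝ) ^ D ≤ 2 * x), if n ∈ VV F i₀ j then e j ^ 2 else 0 := by
    intro n hn
    have hnn : ∀ j, 0 ≤ (if n ∈ VV F i₀ j then e j ^ 2 else 0) := by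
      intro j; split_ifs <;> [exact sq_nonneg _; exact le_rfl]
    by_cases hex : ∃ j, J₀ ≤ j ∧ n ∈ VV F i₀ j
    · obtain ⟨j, hj, hnj⟩ := hex
      rw [Ef_VV h i₀ e hj hnj]
      have h2 : (Ms j : ℝ) ^ D ≤ 2 * x := by
        have h3 := hnj
        rw [VV, mem_image] at h3
        obtain ⟨m, hm, hm'⟩ := h3
        have h4 := (h.size j hj i₀ m hm).1
        have h5 : (n : ℝ) < x := by exact_mod_cast mem_range.1 hn
        rw [hm'] at h4
        linarith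
      have h3 : j ∈ (range L).filter (fun j => J₀ ≤ j ∧ (Ms j : ℝ) ^ D ≤ 2 * x) := by
        rw [mem_filter, mem_range]
        refine ⟨?_, hj, h2⟩
        have h4 : (2 : ℝ) ^ j ≤ 2 * x := by
          have h5 : ((2 : ℝ) ^ j) ≤ Ms j := by exact_mod_cast Ms_two_pow j
          have h6 : (Ms j : ℝ) ≤ (Ms j : ℝ) ^ D := by
            have h7 : (1 : ℝ) ≤ Ms j := by exact_mod_cast Ms_pos j
            have := Real.rpow_le_rpow_of_exponent_le h7 h.one_le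
            rwa [Real.rpow_one] at this
          linarith
        have h5 : (j : ℝ) * Real.log 2 ≤ Real.log (2 * x) := by
          rw [← Real.log_pow]
          exact Real.log_le_log (by positivity) h4
        have h6 : (j : ℝ) ≤ Real.log (2 * x) / Real.log 2 := by rwa [le_div_iff₀ hlog2]
        have h7 := Nat.le_floor h6
        omega
      refine le_trans (le_of_eq ?_) (single_le_sum (fun j _ => hnn j) h3)
      rw [if_pos hnj]
    · rw [Ef_not hex]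
      simpa using sum_nonneg fun j _ => hnn j
  calc ∑ n ∈ range x, Ef F J₀ i₀ e n ^ 2 ≤ ∑ n ∈ range x,
      ∑ j ∈ (range L).filter (fun j => J₀ ≤ j ∧ (Ms j : ℝ) ^ D ≤ 2 * x), (if n ∈ VV F i₀ j then e j ^ 2 else 0) :=
        sum_le_sum h1
    _ = ∑ j ∈ (range L).filter (fun j => J₀ ≤ j ∧ (Ms j : ℝ) ^ D ≤ 2 * x),
        ∑ n ∈ range x, (if n ∈ VV F i₀ j then e j ^ 2 else 0) := sum_comm
    _ ≤ ∑ j ∈ (range L).filter (fun j => J₀ ≤ j ∧ (Ms j : ℝ) ^ D ≤ 2 * x), B := by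
        refine sum_le_sum fun j hj => ?_
        rw [mem_filter] at hj
        rw [← sum_filter, sum_const, nsmul_eq_mul]
        have h2 : (((range x).filter (fun n => n ∈ VV F i₀ j)).card : ℝ) ≤ Ms j := by
          have : ((range x).filter (fun n => n ∈ VV F i₀ j)).card ≤ (VV F i₀ j).card :=
            card_le_card fun n hn => (mem_filter.1 hn).2
          exact_mod_cast this.trans (VV_card i₀ j)
        exact (mul_le_mul_of_nonneg_right h2 (sq_nonneg _)).trans (hb j hj.2.1 hj.2.2)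
    _ ≤ L * B := by
        rw [sum_const, nsmul_eq_mul]
        refine mul_le_mul_of_nonneg_right ?_ hB
        have := card_filter_le (range L) (fun j => J₀ ≤ j ∧ (Ms j : ℝ) ^ D ≤ 2 * x)
        rw [card_range] at this
        exact_mod_cast this
    _ ≤ _ := mul_le_mul_of_nonneg_right hLle hB

end

/-- the size of the thinning -/
noncomputable def ee (k : ℕ) (D δ : ℝ) (j : ℕ) : ℝ :=
  min 1 ((Ms j : ℝ) ^ (-(1 - D * δ) / 2) * Real.log (Ms j) ^ (3 * k))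

theorem ee_mem (k : ℕ) (D δ : ℝ) (j : ℕ) : 0 ≤ ee k D δ j ∧ ee k D δ j ≤ 1 := by
  refine ⟨le_min zero_le_one ?_, min_le_left _ _⟩
  have : 0 ≤ Real.log (Ms j) := Real.log_natCast_nonneg _
  positivity

theorem ee_sq (k : ℕ) (D δ : ℝ) (hD : 1 ≤ D) (hδ : 0 ≤ δ) (j x : ℕ) (hx : 1 ≤ x) (h : (Ms j : ℝ) ^ D ≤ 2 * x) :
    Ms j * ee k D δ j ^ 2 ≤ (2 * x : ℝ) ^ δ * Real.log (2 * x) ^ (6 * k) := by
  have hM1 : (1 : ℝ) ≤ Ms j := by exact_mod_cast Ms_pos j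
  have hM0 : (0 : ℝ) < Ms j := by linarith
  have hl0 : 0 ≤ Real.log (Ms j) := Real.log_natCast_nonneg _
  have hx1 : (1 : ℝ) ≤ x := by exact_mod_cast hx
  have h1 : ee k D δ j ^ 2 ≤ ((Ms j : ℝ) ^ (-(1 - D * δ) / 2) * Real.log (Ms j) ^ (3 * k)) ^ 2 :=
    pow_le_pow_left₀ (ee_mem k D δ j).1 (min_le_right _ _) 2
  have h2 : (Ms j : ℝ) * ((Ms j : ℝ) ^ (-(1 - D * δ) / 2) * Real.log (Ms j) ^ (3 * k)) ^ 2 =
      ((Ms j : ℝ) ^ D) ^ δ * Real.log (Ms j) ^ (6 * k) := by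
    rw [mul_pow, ← pow_mul, ← Real.rpow_natCast ((Ms j : ℝ) ^ (-(1 - D * δ) / 2)), ← Real.rpow_mul hM0.le,
      ← mul_assoc]
    have : (Ms j : ℝ) * (Ms j : ℝ) ^ (-(1 - D * δ) / 2 * ((2 : ℕ) : ℝ)) = ((Ms j : ℝ) ^ D) ^ δ := by
      nth_rewrite 1 [← Real.rpow_one (Ms j : ℝ)]
      rw [← Real.rpow_add hM0, ← Real.rpow_mul hM0.le]
      congr 1
      push_cast; ring
    rw [this]
    congr 2
    ring
  have h3 : (Ms j : ℝ) ≤ 2 * x := by
    have := Real.rpow_le_rpow_of_exponent_le hM1 hD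
    rw [Real.rpow_one] at this
    linarith
  calc Ms j * ee k D δ j ^ 2 ≤ (Ms j : ℝ) * ((Ms j : ℝ) ^ (-(1 - D * δ) / 2) * Real.log (Ms j) ^ (3 * k)) ^ 2 :=
      mul_le_mul_of_nonneg_left h1 hM0.le
    _ = ((Ms j : ℝ) ^ D) ^ δ * Real.log (Ms j) ^ (6 * k) := h2
    _ ≤ _ := by
      apply mul_le_mul
      · exact Real.rpow_le_rpow (by positivity) h hδ
      · exact pow_le_pow_left₀ hl0 (Real.log_le_log hM0 h3) _
      · positivity
      · positivity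

/-- the final estimate of the entropy -/
theorem ent_final (k : ℕ) (δ ε : ℝ) (hδ : 0 ≤ δ) (hε : 0 < ε) : ∀ᶠ x : ℕ in atTop,
    (Real.log (2 * x) / Real.log 2 + 1) * ((2 * x : ℝ) ^ δ * Real.log (2 * x) ^ (6 * k)) ≤ (x : ℝ) ^ (δ + ε) := by
  have hε2 : 0 < ε / 2 := by linarith
  have h1 := (isLittleO_log_rpow_rpow_atTop ((6 * k + 1 : ℕ) : ℝ) hε2).bound one_pos
  have h2x : Tendsto (fun x : ℕ => (2 : ℝ) * x) atTop atTop :=
    tendsto_natCast_atTop_atTop.const_mul_atTop two_pos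
  have h3 : Tendsto (fun x : ℕ => (x : ℝ) ^ (ε / 2)) atTop atTop :=
    (tendsto_rpow_atTop hε2).comp tendsto_natCast_atTop_atTop
  filter_upwards [h2x.eventually h1, eventually_ge_atTop 2, h3.eventually_ge_atTop (3 * 2 ^ (δ + ε / 2))] with x hx1 hx2 hx3
  have hxr : (2 : ℝ) ≤ x := by exact_mod_cast hx2
  have hlog2 : (1 : ℝ) / 2 < Real.log 2 := by
    have := Real.log_two_gt_d9; linarith
  have hy : (1 : ℝ) ≤ Real.log (2 * x) := by
    have h4 : Real.log 4 ≤ Real.log (2 * x) := Real.log_le_log (by norm_num) (by linarith)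
    have h5 : Real.log 4 = 2 * Real.log 2 := by
      rw [show (4 : ℝ) = 2 ^ 2 by norm_num, Real.log_pow]; norm_num
    linarith
  set y := Real.log (2 * x) with hydef
  have h4 : y / Real.log 2 + 1 ≤ 3 * y := by
    have : y / Real.log 2 ≤ 2 * y := by
      rw [div_le_iff₀ (by linarith)]; nlinarith
    linarith
  rw [one_mul, Real.norm_of_nonneg (by positivity), Real.norm_of_nonneg (by positivity), Real.rpow_natCast] at hx1
  have h0 : (0 : ℝ) ≤ 2 * x := by linarith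
  have hxp : (0 : ℝ) < x := by linarith
  calc (y / Real.log 2 + 1) * ((2 * x : ℝ) ^ δ * y ^ (6 * k)) ≤ (3 * y) * ((2 * x : ℝ) ^ δ * y ^ (6 * k)) :=
      mul_le_mul_of_nonneg_right h4 (by positivity)
    _ = 3 * (2 * x : ℝ) ^ δ * y ^ (6 * k + 1) := by ring
    _ ≤ 3 * (2 * x : ℝ) ^ δ * (2 * x : ℝ) ^ (ε / 2) := mul_le_mul_of_nonneg_left hx1 (by positivity)
    _ = 3 * 2 ^ (δ + ε / 2) * (x : ℝ) ^ (δ + ε / 2) := by
      rw [mul_assoc 3, ← Real.rpow_add (by linarith), Real.mul_rpow (by norm_num) hxp.le]; ring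
    _ ≤ (x : ℝ) ^ (ε / 2) * (x : ℝ) ^ (δ + ε / 2) := mul_le_mul_of_nonneg_right hx3 (by positivity)
    _ = (x : ℝ) ^ (δ + ε) := by
      rw [← Real.rpow_add hxp]; congr 1; ring

end Pool.Agent.Q137.BU
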