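import Pool.Agent.Q137.BU.C2
import Pool.Agent.Q137.BU.C3

/-!
# Project BU, job CNX (helper120): the tilted random set
-/

set_option autoImplicit false

namespace Pool.Agent.Q137.BU

open Finset MeasureTheory Filter Pool.Agent.Q120.ET Pool.Agent.Q120.ME Pool.Agent.Q120.BU Polynomial
open scoped Topology

theorem lv_pos {Q n : ℕ} (hQ : 1 ≤ Q) (hn : n ∈ UQ Q) : 0 < lv Q n := by
  rw [lv, if_pos hn]
  have h3 : 3 ≤ n := hn.1
  have h1 : 1 < Real.log n := one_lt_log h3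
  have h2 : 0 < (Q : ℝ) := by exact_mod_cast hQ
  have h4 : 0 < (Nat.totient Q : ℝ) := by exact_mod_cast Nat.totient_pos.2 hQ
  exact lt_min (by norm_num) (by positivity)

theorem lv_mem (Q n : ℕ) (hQ : 1 ≤ Q) : 0 ≤ lv Q n ∧ lv Q n ≤ 1 / 2 := by
  by_cases hn : n ∈ UQ Q
  · refine ⟨(lv_pos hQ hn).le, ?_⟩
    rw [lv, if_pos hn]; exact min_le_left _ _
  · rw [lv, if_neg hn]; norm_num

theorem kl_bound (hkl : J_KL2) {E b : ℝ} (hE : 0 ≤ E ∧ E ≤ 1) (hb : 0 < b ∧ b ≤ 1 / 2) :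
    kl ((1 - E) * b) b ≤ E ^ 2 := by
  have h1 : (1 - E) * b ≤ 1 := by nlinarith
  have h2 : 0 ≤ (1 - E) * b := mul_nonneg (by linarith) hb.1.le
  refine (hkl _ b h2 h1 hb.1 (by linarith)).2.trans ?_
  have h3 : 0 < b * (1 - b) := mul_pos hb.1 (by linarith)
  rw [div_le_iff₀ h3]
  have h4 : b ^ 2 ≤ b * (1 - b) := by nlinarith
  calc ((1 - E) * b - b) ^ 2 = E ^ 2 * b ^ 2 := by ring
    _ ≤ E ^ 2 * (b * (1 - b)) := mul_le_mul_of_nonneg_left h4 (sq_nonneg _)

theorem log_Ms_pos (j : ℕ) : 0 < Real.log (Ms j) := by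
  rw [log_Ms]
  have : 0 < Real.log 2 := Real.log_pos (by norm_num)
  positivity

theorem tendsto_log_Ms : Tendsto (fun j => Real.log (Ms j)) atTop atTop :=
  Real.tendsto_log_atTop.comp (tendsto_natCast_atTop_atTop.comp Ms_tendsto)

theorem summ (k : ℕ) (hk : 1 ≤ k) :
    Summable fun j => Real.exp (-((Real.sqrt (Ms j) * Real.log (Ms j)) ^ 2 / (2 * (k * Ms j)))) := by
  have hlog2 : 0 < Real.log 2 := Real.log_pos (by norm_num)
  have hk0 : (0 : ℝ) < k := by exact_mod_cast hk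
  have hs : Summable fun j : ℕ => (2 * k / Real.log 2 ^ 2) * (1 / 16 : ℝ) ^ j :=
    (summable_geometric_of_lt_one (by norm_num) (by norm_num)).mul_left _
  refine Summable.of_nonneg_of_le (fun j => (Real.exp_pos _).le) (fun j => ?_) hs
  have hM0 : (0 : ℝ) < Ms j := by exact_mod_cast (Ms_pos j)
  have h1 : (Real.sqrt (Ms j) * Real.log (Ms j)) ^ 2 / (2 * (k * Ms j)) = Real.log (Ms j) ^ 2 / (2 * k) := by
    rw [mul_pow, Real.sq_sqrt hM0.le]
    field_simp
  rw [h1, log_Ms]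
  set y : ℝ := (4 ^ j * Real.log 2) ^ 2 / (2 * k) with hy
  have hy0 : 0 < y := by positivity
  have h2 : Real.exp (-y) ≤ 1 / y := by
    rw [Real.exp_neg, inv_eq_one_div]
    exact one_div_le_one_div_of_le hy0 (by linarith [Real.add_one_le_exp y])
  refine h2.trans (le_of_eq ?_)
  rw [hy]
  have h16 : ((1 : ℝ) / 16) ^ j = 1 / ((4 : ℝ) ^ j) ^ 2 := by
    rw [one_div_pow, ← pow_mul, mul_comm j 2, pow_mul]; norm_num
  rw [h16]
  field_simp

/-- the final estimate of the deviation -/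
theorem dev_final (k : ℕ) (hk : 1 ≤ k) (D δ c : ℝ) (hD : 1 ≤ D) (hδ : 0 ≤ δ) (hc : 0 < c) : ∀ᶠ j : ℕ in atTop,
    ∀ X : ℝ, c * (Ms j / Real.log (Ms j) ^ k) ≤ X →
      (Ms j : ℝ) ^ ((1 + min 1 (D * δ)) / 2) / Real.log (Ms j) ^ (k + 1) ≤
        ee k D δ j * X - Real.sqrt (Ms j) * Real.log (Ms j) := by
  have h1 : ∀ᶠ y : ℝ in atTop, Real.log y ^ (k + 2) ≤ Real.sqrt y := by
    have h2 := (isLittleO_log_rpow_rpow_atTop ((k + 2 : ℕ) : ℝ) (by norm_num : (0 : ℝ) < 1 / 2)).bound one_pos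
    filter_upwards [h2, eventually_ge_atTop 1] with y hy hy1
    have h3 : 0 ≤ Real.log y := Real.log_nonneg hy1
    rw [one_mul, Real.norm_of_nonneg (by positivity), Real.norm_of_nonneg (by positivity), Real.rpow_natCast,
      ← Real.sqrt_eq_rpow] at hy
    exact hy
  have hMr : Tendsto (fun j => (Ms j : ℝ)) atTop atTop := tendsto_natCast_atTop_atTop.comp Ms_tendsto
  filter_upwards [hMr.eventually h1, tendsto_log_Ms.eventually_ge_atTop 1, tendsto_log_Ms.eventually_ge_atTop (2 / c)]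
    with j hj1 hj2 hj3 X hX
  set M : ℝ := (Ms j : ℝ) with hM
  set L := Real.log M with hL
  have hM1 : (1 : ℝ) ≤ M := by rw [hM]; exact_mod_cast Ms_pos j
  have hM0 : (0 : ℝ) < M := by linarith
  have hL0 : 0 < L := by linarith
  have hcL : 2 ≤ c * L := by
    rw [div_le_iff₀ hc] at hj3; linarith
  have hs0 : 0 < Real.sqrt M := Real.sqrt_pos.2 hM0
  have hss : Real.sqrt M * Real.sqrt M = M := Real.mul_self_sqrt hM0.le
  have hLk : 0 < L ^ (k + 1) := by positivity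
  have hDδ : 0 ≤ D * δ := mul_nonneg (by linarith) hδ
  have hX0 : 0 ≤ X := le_trans (by positivity) hX
  rw [div_le_iff₀ hLk]
  rcases min_cases (1 : ℝ) (M ^ (-(1 - D * δ) / 2) * L ^ (3 * k)) with ⟨he, _⟩ | ⟨he, _⟩
  · have he' : ee k D δ j = 1 := he
    rw [he', one_mul]
    have h2 : M ^ ((1 + min 1 (D * δ)) / 2) ≤ M := by
      have := Real.rpow_le_rpow_of_exponent_le hM1 (show (1 + min 1 (D * δ)) / 2 ≤ 1 by
        have := min_le_left 1 (D * δ); linarith)
      rwa [Real.rpow_one] at this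
    have h3 : c * L * M ≤ X * L ^ (k + 1) := by
      have h4 := mul_le_mul_of_nonneg_right hX hLk.le
      have h5 : c * (M / L ^ k) * L ^ (k + 1) = c * L * M := by
        rw [pow_succ]; field_simp
      linarith
    have h4 : Real.sqrt M * L * L ^ (k + 1) ≤ M := by
      calc Real.sqrt M * L * L ^ (k + 1) = Real.sqrt M * L ^ (k + 2) := by ring
        _ ≤ Real.sqrt M * Real.sqrt M := mul_le_mul_of_nonneg_left hj1 hs0.le
        _ = M := hss
    nlinarith
  · have he' : ee k D δ j = M ^ (-(1 - D * δ) / 2) * L ^ (3 * k) := he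
    have h2 : M ^ ((1 + min 1 (D * δ)) / 2) ≤ M ^ ((1 + D * δ) / 2) :=
      Real.rpow_le_rpow_of_exponent_le hM1 (by have := min_le_right 1 (D * δ); linarith)
    have h3 : Real.sqrt M ≤ M ^ ((1 + D * δ) / 2) := by
      rw [Real.sqrt_eq_rpow]
      exact Real.rpow_le_rpow_of_exponent_le hM1 (by linarith)
    set G := M ^ ((1 + D * δ) / 2) with hG
    have hG0 : 0 < G := by positivity
    have h4 : c * G * L ^ (2 * k) ≤ ee k D δ j * X := by
      have h5 := mul_le_mul_of_nonneg_left hX (ee_mem k D δ j).1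
      refine le_trans (le_of_eq ?_) h5
      rw [he']
      have h6 : M ^ (-(1 - D * δ) / 2) * M = G := by
        nth_rewrite 2 [← Real.rpow_one M]
        rw [← Real.rpow_add hM0, hG]
        congr 1; ring
      calc c * G * L ^ (2 * k) = c * (M ^ (-(1 - D * δ) / 2) * M) * L ^ (2 * k) := by rw [h6]
        _ = _ := by
          rw [show 3 * k = 2 * k + k by ring, pow_add]
          field_simp
    have h5 : L ^ 2 ≤ L ^ (2 * k) := pow_le_pow_right₀ hj2 (by omega)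
    have h6 : c * G * L ^ 2 ≤ ee k D δ j * X := (mul_le_mul_of_nonneg_left h5 (by positivity)).trans h4
    have h7 : G * L ≤ ee k D δ j * X - Real.sqrt M * L := by
      have h8 : Real.sqrt M * L ≤ G * L := mul_le_mul_of_nonneg_right h3 hL0.le
      have h9 : 2 * (G * L) ≤ c * G * L ^ 2 := by
        have : 2 * (G * L) ≤ (c * L) * (G * L) := mul_le_mul_of_nonneg_right hcL (by positivity)
        nlinarith
      linarith
    have h8 : G ≤ G * L := by nlinarith
    have h9 : (1 : ℝ) ≤ L ^ (k + 1) := one_le_pow₀ hj2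
    have h10 : 0 ≤ ee k D δ j * X - Real.sqrt M * L := by
      have : 0 ≤ G * L := by positivity
      linarith
    nlinarith

theorem t_CNX (hmcd : J_MCD) (hkl : J_KL2) (hspc : J_SPC) : J_CNX := by
  intro Q k g C δ hQ hk hg hC hδ
  obtain ⟨c, hc, hev⟩ := hspc Q k g C hQ hk hg hC
  have hg1 : (1 : ℝ) ≤ g := by exact_mod_cast hg
  have hD1 : (1 : ℝ) ≤ (g : ℝ) + C := by linarith
  have hgap : ∀ᶠ j in atTop, 2 ^ (g + 1) * (Ms j : ℝ) ^ ((g : ℝ) + C) < (Ms (j + 1) : ℝ) ^ ((g : ℝ) + C) / 2 := by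
    have hMr : Tendsto (fun j => (Ms j : ℝ)) atTop atTop := tendsto_natCast_atTop_atTop.comp Ms_tendsto
    filter_upwards [hMr.eventually_gt_atTop (2 ^ (g + 2))] with j hj
    have hM1 : (1 : ℝ) ≤ Ms j := by exact_mod_cast Ms_pos j
    have h1 : (Ms (j + 1) : ℝ) ^ ((g : ℝ) + C) = ((Ms j : ℝ) ^ ((g : ℝ) + C)) ^ 4 := by
      rw [Ms_succ]; push_cast
      rw [← Real.rpow_natCast, ← Real.rpow_mul (by linarith), ← Real.rpow_natCast, ← Real.rpow_mul (by linarith)]
      congr 1; push_cast; ring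
    rw [h1]
    have h2 : (Ms j : ℝ) ≤ (Ms j : ℝ) ^ ((g : ℝ) + C) := by
      have := Real.rpow_le_rpow_of_exponent_le hM1 hD1
      rwa [Real.rpow_one] at this
    set y := (Ms j : ℝ) ^ ((g : ℝ) + C) with hy
    have hy1 : 1 ≤ y := by linarith
    have hy2 : 2 ^ (g + 2) < y := by linarith
    have h3 : y ^ 4 = y * y * (y * y) := by ring
    have h4 : y ≤ y * y := by nlinarith
    have h5 : (2 : ℝ) ^ (g + 2) = 2 * 2 ^ (g + 1) := by ring
    have h6 : 2 ^ (g + 2) * y < y * y := mul_lt_mul_of_pos_right hy2 (by linarith)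
    have h7 : y * y ≤ y * y * (y * y) := by nlinarith
    rw [h3]
    nlinarith
  obtain ⟨J₀, hJ₀⟩ := eventually_atTop.1 ((Ms_tendsto.eventually hev).and hgap)
  set F : ℕ → Fin k → ℤ[X] := fun j => spec Q k g C (Ms j) with hF
  have hsep : Sep F g J₀ ((g : ℝ) + C) := by
    refine ⟨fun l hl => (hJ₀ l hl).1.2.2.2.2.2.1, fun l hl => (hJ₀ l hl).1.2.2.2.2.2.2, fun l hl => ?_,
      fun l hl => (hJ₀ l hl).2, hD1⟩
    exact (hJ₀ l hl).1.2.2.2.2.1
  set i₀ : Fin k := ⟨0, hk⟩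
  set e : ℕ → ℝ := ee k ((g : ℝ) + C) δ with he
  have he01 : ∀ j, 0 ≤ e j ∧ e j ≤ 1 := fun j => ee_mem _ _ _ j
  set r : ℕ → ℝ := fun n => (1 - Ef F J₀ i₀ e n) * lv Q n with hr
  have hr01 : ∀ n, 0 ≤ r n ∧ r n ≤ 1 := by
    intro n
    have h1 := Ef_mem (F := F) (J₀ := J₀) i₀ e he01 n
    have h2 := lv_mem Q n hQ
    refine ⟨mul_nonneg (by linarith) h2.1, ?_⟩
    simp only [hr]
    nlinarith
  obtain ⟨Ω, mΩ, μ, hμ, A, hA⟩ := exists_ind r hr01
  refine ⟨Ω, mΩ, μ, hμ, A, ⟨hA.rand, ?_, ?_⟩, ?_, ?_⟩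
  · filter_upwards [hA.ae_notMem] with ω hω n hn
    by_contra hcon
    refine hω n ?_ hn
    simp only [hr]
    rw [lv, if_neg hcon, mul_zero]
  · intro ε hε
    filter_upwards [ent_final k δ ε hδ hε, eventually_ge_atTop 1] with x hx hx1
    have h1 : ∀ n ∈ ind (UQ Q) x, 0 < lv Q n ∧ lv Q n < 1 := by
      intro n hn
      classical
      rw [ind, mem_filter] at hn
      exact ⟨lv_pos hQ hn.2, by linarith [(lv_mem Q n hQ).2]⟩
    refine (hA.ent (lv Q) (ind (UQ Q) x) h1).trans ?_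
    have h2 : ∑ n ∈ ind (UQ Q) x, kl (r n) (lv Q n) ≤ ∑ n ∈ range x, Ef F J₀ i₀ e n ^ 2 := by
      calc ∑ n ∈ ind (UQ Q) x, kl (r n) (lv Q n) ≤ ∑ n ∈ ind (UQ Q) x, Ef F J₀ i₀ e n ^ 2 :=
          sum_le_sum fun n hn => kl_bound hkl (Ef_mem (F := F) (J₀ := J₀) i₀ e he01 n) ⟨(h1 n hn).1, (lv_mem Q n hQ).2⟩
        _ ≤ _ := sum_le_sum_of_subset_of_nonneg (by classical exact filter_subset _ _) fun _ _ _ => sq_nonneg _
    refine h2.trans ((Ef_sum hsep i₀ e x hx1 _ ?_ ?_).trans hx)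
    · have : 0 ≤ Real.log (2 * x) := Real.log_nonneg (by
        have : (1 : ℝ) ≤ x := by exact_mod_cast hx1
        linarith)
      positivity
    · intro j _ hj
      exact ee_sq k _ δ hD1 hδ j x hx1 hj
  · have hbc := hA.bc hr01 hmcd hk F Ms J₀ Ms_pos (fun l hl => hsep.dis l hl) (fun l hl => hsep.inj l hl)
      (fun j => Real.sqrt (Ms j) * Real.log (Ms j)) (fun j => mul_pos (Real.sqrt_pos.2 (by exact_mod_cast Ms_pos j))
        (log_Ms_pos j)) (summ k hk)
    filter_upwards [hbc] with ω hω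
    refine Ms_tendsto.frequently (Eventually.frequently ?_)
    filter_upwards [hω, dev_final k hk ((g : ℝ) + C) δ c hD1 hδ hc, eventually_ge_atTop J₀] with j hj1 hj2 hj3
    have h1 : ∑ n ∈ Ico (Ms j) (2 * Ms j), ∏ v ∈ vals (F j) n, r v =
        (1 - e j) * (ex (lv Q) (F j) (2 * Ms j) - ex (lv Q) (F j) (Ms j)) := by
      rw [ex_diff, mul_sum]
      refine sum_congr rfl fun n hn => ?_
      rw [← Ef_prod hsep i₀ e hj3 hn, ← prod_mul_distrib]
    have h2 := hit_diff (A ω) (F j) (Ms j) A ω rfl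
    have h3 := hj2 _ (hJ₀ j hj3).1.2.2.2.1
    rw [h1, ← h2, abs_lt] at hj1
    have h4 : F j = spec Q k g C (Ms j) := rfl
    rw [h4] at hj1
    have h5 : e j = ee k ((g : ℝ) + C) δ j := rfl
    rw [← h5] at h3
    linarith [hj1.2]
  · intro hDδ
    filter_upwards [hA.ae_notMem] with ω hω
    refine Ms_tendsto.frequently (Eventually.frequently ?_)
    filter_upwards [eventually_ge_atTop J₀, tendsto_log_Ms.eventually_ge_atTop 1] with j hj hj1
    have he1 : e j = 1 := by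
      simp only [he, ee]
      apply min_eq_left
      have h1 : (1 : ℝ) ≤ (Ms j : ℝ) ^ (-(1 - ((g : ℝ) + C) * δ) / 2) :=
        Real.one_le_rpow (by exact_mod_cast Ms_pos j) (by linarith)
      have h2 : (1 : ℝ) ≤ Real.log (Ms j) ^ (3 * k) := one_le_pow₀ hj1
      nlinarith
    have h2 := hit_diff (A ω) (F j) (Ms j) A ω rfl
    have h3 : ff (F j) (Ms j) (tr A (WW (F j) (Ms j)) ω) = 0 := by
      classical
      unfold ff
      rw [Nat.cast_eq_zero, card_eq_zero, filter_eq_empty_iff]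
      intro n hn hsub
      have h4 : va (F j i₀) n ∈ A ω := (mem_tr.1 (hsub ((mem_vals _ _ _).2 ⟨i₀, rfl⟩))).2
      refine hω _ ?_ h4
      simp only [hr]
      rw [Ef_VV hsep i₀ e hj (mem_image_of_mem _ hn), he1]; ring
    rw [h3, sub_eq_zero] at h2
    exact_mod_cast h2

end Pool.Agent.Q137.BU
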